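import Mathlib
import Pool.Agent.Helper300.JonesT

/-!
# MP_3a3191_gt: continuity of Jones's set function `T` and indecomposability

Let `S` be a continuum (a compact connected Hausdorff space) for which Jones's set function `T` is
continuous, and let `T {p}` have nonempty interior for some point `p`. Then `S` is indecomposable
(`of_continuous`, the question). It is enough that the map `x ↦ T {x}` of `S` into the hyperspace of
the closed subsets with the Vietoris topology is continuous (`result`).

Idea of the proof. Let `K = T {p}` and `U = interior K`. Continuity gives `T {y} ⊆ T {x}` for all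
`y ∈ T {x}`. The set `Z` of the `z ∈ K` with `T {z} = K` is contained in `U`. If a nonempty open set
`V` had its closure in `U \ Z`, the union `G` of the `T {a}`, where `a` is in `closure V` or in
`K` with `T {a} ∩ V = ∅`, would be closed, would miss `Z`, and every `T {y}`, `y ∈ K`, would meet it.
For a separation of `G` the set of the `x ∈ K` whose `T {x}` meets the first part is open and closed
in `K`, so `G` is connected; but then it is a continuum that contains `V` and misses `p`, although
`V ⊆ T {p}`. So `U = Z` is open and closed, hence everything.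
-/

set_option autoImplicit false

open Set Topology TopologicalSpace

namespace Pool.Agent.Results.MP_3a3191_gt.ContinuousT

variable {S : Type*} [TopologicalSpace S]

/-- `W` is a subcontinuum of `S`: a closed connected (in particular nonempty) subset. -/
def IsSubcontinuum (W : Set S) : Prop := IsClosed W ∧ IsConnected W

/-- Jones's set function: `T A` is `S` without the points `p` which are in the interior of a
subcontinuum `W` that is disjoint from `A`. -/
def T (A : Set S) : Set S :=
  univ \ {p | ∃ W : Set S, IsSubcontinuum W ∧ p ∈ interior W ∧ W ∩ A = ∅}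

theorem T_eq (A : Set S) : T A = Pool.Agent.Helper300.JonesT.T A := by
  ext p
  simp only [T, Pool.Agent.Helper300.JonesT.T, mem_sdiff, mem_univ, true_and, mem_ofPred_eq,
    not_exists, not_and, IsSubcontinuum, mem_interior_iff_mem_nhds, ← nonempty_iff_ne_empty,
    and_imp, ← ne_eq]

theorem isClosed_T (A : Set S) : IsClosed (T A) := by
  rw [T_eq]; exact Pool.Agent.Helper300.JonesT.isClosed_T A

/-- Jones's set function on the closed subsets of the compact space `S`. -/
def TC [CompactSpace S] (A : Compacts S) : Compacts S :=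
  ⟨T (A : Set S), (isClosed_T _).isCompact⟩

/-- `S` is indecomposable: it is not the union of two proper subcontinua. -/
def Indecomposable (S : Type*) [TopologicalSpace S] : Prop :=
  ¬ ∃ A B : Set S, IsSubcontinuum A ∧ A ≠ univ ∧ IsSubcontinuum B ∧ B ≠ univ ∧ A ∪ B = univ

theorem notMem_T {A : Set S} {p : S} :
    p ∉ T A ↔ ∃ W : Set S, IsSubcontinuum W ∧ p ∈ interior W ∧ W ∩ A = ∅ := by
  simp only [T, mem_sdiff, mem_univ, true_and, mem_ofPred_eq, not_not]

theorem self_mem (x : S) : x ∈ T ({x} : Set S) := by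
  by_contra h
  obtain ⟨W, _, h2, h3⟩ := notMem_T.1 h
  have : x ∈ W ∩ {x} := ⟨interior_subset h2, rfl⟩
  rw [h3] at this
  exact this

theorem meets {x y : S} {W : Set S} (hy : y ∈ T ({x} : Set S)) (hW : IsSubcontinuum W)
    (hyW : y ∈ interior W) : x ∈ W := by
  by_contra hx
  apply notMem_T.2 ⟨W, hW, hyW, ?_⟩ hy
  rw [eq_empty_iff_forall_notMem]
  rintro z ⟨hz, rfl⟩
  exact hx hz

/-- The relation `y ∈ T {x}` is closed. -/
theorem isClosed_rel : IsClosed {q : S × S | q.2 ∈ T ({q.1} : Set S)} := by
  rw [← isOpen_compl_iff, isOpen_iff_mem_nhds]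
  rintro ⟨x, y⟩ hxy
  obtain ⟨W, hW1, hW2, hW3⟩ := notMem_T.1 hxy
  have hx : x ∈ Wᶜ := by
    intro h
    have : x ∈ W ∩ {x} := ⟨h, rfl⟩
    rw [hW3] at this
    exact this
  filter_upwards [prod_mem_nhds (hW1.1.isOpen_compl.mem_nhds hx) (isOpen_interior.mem_nhds hW2)]
  rintro ⟨x', y'⟩ ⟨h1, h2⟩ h3
  exact h1 (meets h3 hW1 h2)

set_option linter.unusedSectionVars false

section main

variable [CompactSpace S] [T2Space S] [ConnectedSpace S]

theorem connected (x : S) : IsConnected (T ({x} : Set S)) := by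
  rw [T_eq]; exact Pool.Agent.Helper300.JonesT.isConnected_T_singleton x

theorem isOpen_meets (hT : Continuous (fun x : S => TC ({x} : Compacts S))) {U : Set S} (hU : IsOpen U) :
    IsOpen {x : S | (T ({x} : Set S) ∩ U).Nonempty} := by
  have h1 : IsOpen {K : Compacts S | ((K : Set S) ∩ U).Nonempty} :=
    Compacts.isOpen_inter_nonempty_of_isOpen hU
  exact h1.preimage hT

theorem isClosed_meets {F : Set S} (hF : IsClosed F) :
    IsClosed {x : S | (T ({x} : Set S) ∩ F).Nonempty} := by
  have h : {x : S | (T ({x} : Set S) ∩ F).Nonempty} =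
      Prod.fst '' ({q : S × S | q.2 ∈ T ({q.1} : Set S)} ∩ Prod.snd ⁻¹' F) := by
    ext x
    constructor
    · rintro ⟨y, h1, h2⟩
      exact ⟨(x, y), ⟨h1, h2⟩, rfl⟩
    · rintro ⟨⟨x', y⟩, ⟨h1, h2⟩, rfl⟩
      exact ⟨y, h1, h2⟩
  rw [h]
  exact ((isClosed_rel.inter (hF.preimage continuous_snd)).isCompact.image
    continuous_fst).isClosed

/-- Transitivity, from continuity. -/
theorem trans (hT : Continuous (fun x : S => TC ({x} : Compacts S))) {x y : S}
    (hy : y ∈ T ({x} : Set S)) : T ({y} : Set S) ⊆ T ({x} : Set S) := by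
  intro z hz
  by_contra hcon
  obtain ⟨W, hW1, hW2, hW3⟩ := notMem_T.1 hcon
  have hxW : x ∉ W := by
    intro h
    have : x ∈ W ∩ {x} := ⟨h, rfl⟩
    rw [hW3] at this
    exact this
  have hyW : y ∉ interior W := fun h => hxW (meets hy hW1 h)
  have hycl : y ∈ closure Wᶜ := by
    rwa [closure_compl]
  have h1 : IsOpen {v : S | (T ({v} : Set S) ∩ interior W).Nonempty} :=
    isOpen_meets hT isOpen_interior
  obtain ⟨v, hv1, hv2⟩ := mem_closure_iff.1 hycl _ h1 ⟨z, hz, hW2⟩
  obtain ⟨w, hw1, hw2⟩ := hv1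
  exact hv2 (meets hw1 hW1 hw2)

/-- The union of the sets `T {a}`, `a ∈ A`. -/
def down (A : Set S) : Set S := {y | ∃ a ∈ A, y ∈ T ({a} : Set S)}

omit [ConnectedSpace S] in
theorem isClosed_down {A : Set S} (hA : IsClosed A) : IsClosed (down A) := by
  have h : down A =
      Prod.snd '' ({q : S × S | q.2 ∈ T ({q.1} : Set S)} ∩ Prod.fst ⁻¹' A) := by
    ext y
    constructor
    · rintro ⟨a, h1, h2⟩
      exact ⟨(a, y), ⟨h2, h1⟩, rfl⟩
    · rintro ⟨⟨a, y'⟩, ⟨h1, h2⟩, rfl⟩
      exact ⟨a, h2, h1⟩
  rw [h]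
  exact ((isClosed_rel.inter (hA.preimage continuous_fst)).isCompact.image
    continuous_snd).isClosed

/-- Key lemma: let `K` be connected with `T {x} ⊆ K` for `x ∈ K`, and let `G ⊆ K` be a closed set with
`T {y} ⊆ G` for `y ∈ G` which meets every `T {y}`, `y ∈ K`. Then `G` is connected. -/
theorem preconnected_of_hitting (hT : Continuous (fun x : S => TC ({x} : Compacts S))) {K G : Set S}
    (hK : IsPreconnected K) (hKd : ∀ x ∈ K, T ({x} : Set S) ⊆ K) (hG : IsClosed G) (hGK : G ⊆ K)
    (hGd : ∀ y ∈ G, T ({y} : Set S) ⊆ G) (hhit : ∀ y ∈ K, (T ({y} : Set S) ∩ G).Nonempty) :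
    IsPreconnected G := by
  rw [isPreconnected_iff_subset_of_fully_disjoint_closed hG]
  intro P Q hP hQ hPQu hPQ
  by_contra hcon
  rw [not_or, not_subset, not_subset] at hcon
  obtain ⟨⟨a, haG, haP⟩, ⟨b, hbG, hbQ⟩⟩ := hcon
  have haQ : a ∈ Q := (hPQu haG).resolve_left haP
  have hbP : b ∈ P := (hPQu hbG).resolve_right hbQ
  -- `T` of a point of one part stays in that part
  have hTP : ∀ y ∈ G, y ∈ P → T ({y} : Set S) ⊆ P := fun y hy hyP => by
    rcases isPreconnected_iff_subset_of_disjoint_closed.1 (connected y).isPreconnected P Q hP hQ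
      ((hGd y hy).trans hPQu) (by rw [hPQ.inter_eq, inter_empty]) with h | h
    · exact h
    · exact absurd (h (self_mem y)) (disjoint_left.1 hPQ hyP)
  have hTQ : ∀ y ∈ G, y ∈ Q → T ({y} : Set S) ⊆ Q := fun y hy hyQ => by
    rcases isPreconnected_iff_subset_of_disjoint_closed.1 (connected y).isPreconnected P Q hP hQ
      ((hGd y hy).trans hPQu) (by rw [hPQ.inter_eq, inter_empty]) with h | h
    · exact absurd hyQ (disjoint_left.1 hPQ (h (self_mem y)))
    · exact h
  set C1 : Set S := {x | (T ({x} : Set S) ∩ (G ∩ P)).Nonempty} with hC1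
  set C2 : Set S := {x | (T ({x} : Set S) ∩ (G ∩ Q)).Nonempty} with hC2
  have hC1cl : IsClosed C1 := isClosed_meets (hG.inter hP)
  have hC2cl : IsClosed C2 := isClosed_meets (hG.inter hQ)
  set D1 : Set S := {x | (T ({x} : Set S) ∩ C2ᶜ).Nonempty} with hD1
  have hD1op : IsOpen D1 := isOpen_meets hT hC2cl.isOpen_compl
  have h12 : ∀ x, x ∈ C1 → x ∈ D1 := by
    rintro x ⟨y, hyx, hyG, hyP⟩
    refine ⟨y, hyx, ?_⟩
    rintro ⟨w, hw1, -, hw3⟩
    exact disjoint_left.1 hPQ (hTP y hyG hyP hw1) hw3
  have h21 : ∀ x ∈ K, x ∈ D1 → x ∈ C1 := by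
    rintro x hxK ⟨y, hyx, hyC⟩
    obtain ⟨w, hw1, hw2⟩ := hhit y (hKd x hxK hyx)
    rcases hPQu hw2 with h | h
    · exact ⟨w, trans hT hyx hw1, hw2, h⟩
    · exact absurd ⟨w, hw1, hw2, h⟩ hyC
  obtain ⟨x, hxK, hx1, hx2⟩ := hK D1 C1ᶜ hD1op hC1cl.isOpen_compl
    (fun x _ => by
      by_cases h : x ∈ C1
      · exact Or.inl (h12 x h)
      · exact Or.inr h)
    ⟨b, hGK hbG, h12 b ⟨b, self_mem b, hbG, hbP⟩⟩
    ⟨a, hGK haG, by
      rintro ⟨w, hw1, -, hw3⟩
      exact disjoint_left.1 hPQ hw3 (hTQ a haG haQ hw1)⟩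
  exact hx2 (h21 x hxK hx1)

/-- If `T` is continuous and `T {p}` has nonempty interior, then `T {x} = S` for all `x`. -/
theorem T_eq_univ (hT : Continuous (fun x : S => TC ({x} : Compacts S))) {p : S}
    (hp : (interior (T ({p} : Set S))).Nonempty) (x : S) : T ({x} : Set S) = univ := by
  set K : Set S := T ({p} : Set S) with hKdef
  have hKcl : IsClosed K := isClosed_T _
  have hKcon : IsSubcontinuum K := ⟨hKcl, connected p⟩
  have hpK : p ∈ K := self_mem p
  have hKd : ∀ x ∈ K, T ({x} : Set S) ⊆ K := fun x hx => trans hT hx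
  set U : Set S := interior K with hU
  have h2 : ∀ x : S, (T ({x} : Set S) ∩ U).Nonempty → x ∈ U := by
    intro x hx
    have h : {x : S | (T ({x} : Set S) ∩ U).Nonempty} ⊆ interior K := by
      apply interior_maximal _ (isOpen_meets hT isOpen_interior)
      rintro v ⟨y, hy1, hy2⟩
      exact meets hy1 hKcon hy2
    exact h hx
  set Z : Set S := {z | z ∈ K ∧ K ⊆ T ({z} : Set S)} with hZ
  have hpZ : p ∈ Z := ⟨hpK, Subset.rfl⟩
  have hZU : Z ⊆ U := by
    rintro z ⟨_, hz⟩
    apply h2
    obtain ⟨y, hy⟩ := hp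
    exact ⟨y, hz (interior_subset hy), hy⟩
  have hZcl : IsClosed Z := by
    have : Z = K ∩ ⋂ k ∈ K, {z : S | k ∈ T ({z} : Set S)} := by
      ext z
      simp only [hZ, mem_ofPred_eq, mem_inter_iff, mem_iInter, subset_def]
    rw [this]
    refine hKcl.inter (isClosed_biInter fun k _ => ?_)
    exact isClosed_rel.preimage (continuous_id.prodMk continuous_const)
  have hUZ : U ⊆ Z := by
    intro x0 hx0
    by_contra hx0Z
    obtain ⟨V, hVo, hxV, hVU⟩ := normal_exists_closure_subset (isClosed_singleton (x := x0))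
      (isOpen_interior.inter hZcl.isOpen_compl : IsOpen (U ∩ Zᶜ))
      (singleton_subset_iff.2 ⟨hx0, hx0Z⟩)
    rw [singleton_subset_iff] at hxV
    have hVK : V ⊆ K := fun v hv => interior_subset (hVU (subset_closure hv)).1
    set O : Set S := {y : S | (T ({y} : Set S) ∩ V).Nonempty} with hO
    have hOop : IsOpen O := isOpen_meets hT hVo
    have hZO : Z ⊆ O := by
      rintro z ⟨_, hz⟩
      exact ⟨x0, hz (hVK hxV), hxV⟩
    set A : Set S := (K ∩ Oᶜ) ∪ closure V with hA
    have hAcl : IsClosed A := (hKcl.inter hOop.isClosed_compl).union isClosed_closure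
    have hAK : A ⊆ K := by
      rintro a (ha | ha)
      · exact ha.1
      · exact interior_subset (hVU ha).1
    have hAZ : ∀ a ∈ A, a ∉ Z := by
      rintro a (ha | ha) haZ
      · exact ha.2 (hZO haZ)
      · exact (hVU ha).2 haZ
    have hVG : V ⊆ down A := fun v hv => ⟨v, Or.inr (subset_closure hv), self_mem v⟩
    have hGpre : IsPreconnected (down A) := by
      apply preconnected_of_hitting hT (connected p).isPreconnected hKd (isClosed_down hAcl)
      · rintro y ⟨a, ha, hy⟩
        exact hKd a (hAK ha) hy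
      · rintro y ⟨a, ha, hy⟩ w hw
        exact ⟨a, ha, trans hT hy hw⟩
      · intro y hy
        by_cases hyO : y ∈ O
        · obtain ⟨w, hw1, hw2⟩ := hyO
          exact ⟨w, hw1, hVG hw2⟩
        · exact ⟨y, self_mem y, y, Or.inl ⟨hy, hyO⟩, self_mem y⟩
    have hGc : IsSubcontinuum (down A) := ⟨isClosed_down hAcl, ⟨x0, hVG hxV⟩, hGpre⟩
    have hpG : p ∈ down A :=
      meets (hVK hxV : x0 ∈ T ({p} : Set S)) hGc (interior_maximal hVG hVo hxV)
    obtain ⟨a, ha, hpa⟩ := hpG
    exact hAZ a ha ⟨hAK ha, trans hT hpa⟩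
  have hUeq : U = Z := Subset.antisymm hUZ hZU
  have hclopen : IsClopen Z := ⟨hZcl, hUeq ▸ isOpen_interior⟩
  have huniv : Z = univ := hclopen.eq_univ ⟨p, hpZ⟩
  have hKuniv : K = univ := by
    rw [eq_univ_iff_forall]
    intro y
    have : y ∈ Z := by rw [huniv]; exact mem_univ y
    exact this.1
  have hx : x ∈ Z := by rw [huniv]; exact mem_univ x
  rw [← univ_subset_iff, ← hKuniv]
  exact hx.2

end main

/-- Let `S` be a continuum such that `x ↦ T {x}` is continuous (with respect to the Vietoris topology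
on the closed subsets of `S`); this holds in particular if `T` is continuous for `S`, see
`of_continuous` below. If `T {p}` has nonempty interior for some point `p`, then `S` is
indecomposable. -/
theorem result (S : Type*) [TopologicalSpace S] [CompactSpace S] [T2Space S] [ConnectedSpace S]
    (hT : Continuous (fun x : S => TC ({x} : Compacts S)))
    (hp : ∃ p : S, (interior (T ({p} : Set S))).Nonempty) : Indecomposable S := by
  obtain ⟨p, hp⟩ := hp
  rintro ⟨A, B, hA, hA', hB, hB', hAB⟩
  obtain ⟨x, hx⟩ := (ne_univ_iff_exists_notMem A).1 hA'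
  obtain ⟨y, hy⟩ := (ne_univ_iff_exists_notMem B).1 hB'
  have hyA : y ∈ interior A := by
    have h : Bᶜ ⊆ interior A := by
      apply interior_maximal _ hB.1.isOpen_compl
      intro w hw
      have : w ∈ A ∪ B := by rw [hAB]; exact mem_univ w
      exact this.resolve_right hw
    exact h hy
  have hyT : y ∈ T ({x} : Set S) := by rw [T_eq_univ hT hp x]; exact mem_univ y
  exact hx (meets hyT hA hyA)

/-- The question in its own words: the same if `T` is continuous for `S`, as a map of the hyperspace
of the closed subsets of `S` into itself. -/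
theorem of_continuous (S : Type*) [TopologicalSpace S] [CompactSpace S] [T2Space S]
    [ConnectedSpace S] (hT : Continuous (TC : Compacts S → Compacts S))
    (hp : ∃ p : S, (interior (T ({p} : Set S))).Nonempty) : Indecomposable S :=
  result S (hT.comp Compacts.continuous_singleton) hp

end Pool.Agent.Results.MP_3a3191_gt.ContinuousT
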